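import Pool.Agent.Y152.AS.Defs2
import Pool.Agent.TH133.Tens

/-!
# Surfaces which satisfy Voisin's conjecture on the zero-cycles of `S × S`: definitions
-/

open CategoryTheory AlgebraicGeometry

universe u v w

namespace Pool.Agent.X307.BV

open Pool.Agent.H914 Pool.Agent.H914.VarClass Pool.Agent.H914.VarClass.Obj Pool.Agent.W492.BB
  Pool.Agent.W550.Corr Pool.Agent.TH133 Pool.Agent.Y152.AS

variable {k : Type u} [Field k] {𝒱 : VarClass k} {C : TheoryData.{u, v, 0} 𝒱 ℚ}

/-- The action of correspondences on homologically trivial divisor classes is determined by their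
action on `H^1`: if `Γ ∈ CH^(dim X)(X × Y)_ℚ` acts as zero on `H^1(X)` then `Γ_* D = 0` for all
`D ∈ CH^1(X)_ℚ` which are homologically trivial. This holds since `Γ_*` is given by a homomorphism
`Pic^0(X) → Pic^0(Y)` of abelian varieties, and homomorphisms of abelian varieties which act as
zero on `H^1` are zero. -/
def PicardRigid {K : Type w} [Field K] (H : WeilTheoryData.{u, v, w} C K) : Prop :=
  ∀ (X Y : 𝒱.Obj) (Γ : C.A (X.prod Y)), C.Deg X.dim Γ → Kills H Γ 1 →
    ∀ D : C.A X, C.Deg 1 D → H.cl D = 0 → C.act Γ D = 0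

/-- The correspondence `Φ ∈ CH^(dim U)(U × U)_ℚ` is supported on `U × (divisor)`: it is a sum of
compositions `U → Y → U` of correspondences in `CH^(dim U - 1)(U × Y)_ℚ` and
`CH^(dim U)(Y × U)_ℚ` with varieties `Y` of dimension `dim U - 1` (the desingularizations of the
components of the divisor; the second correspondence is the graph of `Y → U`). -/
def FactorsThroughDivisors (U : 𝒱.Obj) (Φ : C.A (U.prod U)) : Prop :=
  ∃ (n : ℕ) (Y : Fin n → 𝒱.Obj) (Γ : ∀ i, C.A (U.prod (Y i))) (Δ : ∀ i, C.A ((Y i).prod U)),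
    (∀ i, (Y i).dim + 1 = U.dim ∧ C.Deg (Y i).dim (Γ i) ∧ C.Deg U.dim (Δ i)) ∧
    Φ = ∑ i, C.comp (Γ i) (Δ i)

/-- The surface `S` satisfies Voisin's conjecture `α × β = β × α` in `CH_0(S × S)_ℚ` for all
`α, β ∈ F^2 CH_0(S)_ℚ`, in the form of a decomposition: for some self-correspondence
`p ∈ CH^2(S × S)_ℚ` such that `[Δ_S] - p` is degenerate and `p` acts as zero on `H^1(S)` and
`H^3(S)` (for example the projector on the transcendental motive of `S`), the correspondence
`([Δ] - [graph of the exchange of the factors]) ∘ (p × p)` on `S × S`, whose action on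
`CH_0(S × S)` is `x × y ↦ p_* x × p_* y - p_* y × p_* x`, is supported on `(S × S) × (divisor)`.
For complex surfaces the two forms are equivalent, by the theorem of Bloch and Srinivas. -/
def SatisfiesVoisin {K : Type w} [Field K] (H : WeilTheoryData.{u, v, w} C K) (S : 𝒱.Obj) :
    Prop :=
  ∃ p : C.A (S.prod S), C.Deg 2 p ∧ IsDegenerate C (dg C S - p) ∧ Kills H p 1 ∧ Kills H p 3 ∧
    FactorsThroughDivisors (S.prod S)
      (C.comp (tens C p p) (dg C (S.prod S) - C.graph (sw S S)))

/-- The self-correspondence `Z` of the surface `S` is injective on `F^2 CH_0(S)_ℚ`. -/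
def InjectiveOnAlbKer {S : 𝒱.Obj} (Z : C.A (S.prod S)) : Prop :=
  ∀ α : C.A S, InAlbKer C α → C.act Z α = 0 → α = 0

end Pool.Agent.X307.BV
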