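import Pool.Agent.X307.BV.Defs
import Pool.Agent.Y152.AS.Proj

/-!
# Homologically degenerate correspondences of surfaces satisfying Voisin's conjecture act as their
transposes
-/

open CategoryTheory AlgebraicGeometry

universe u v w

namespace Pool.Agent.X307.BV

open Pool.Agent.H914 Pool.Agent.H914.VarClass Pool.Agent.H914.VarClass.Obj Pool.Agent.W492.BB
  Pool.Agent.W550.Corr Pool.Agent.TH133 Pool.Agent.Y152.AS

set_option linter.unusedSectionVars false

variable {k : Type u} [Field k] {𝒱 : VarClass k} {C : TheoryData.{u, v, 0} 𝒱 ℚ}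
  [hC : IsChowProj C] {K : Type w} [Field K] {H : WeilTheoryData.{u, v, w} C K}
  [hH : IsWeilProj H] {S X Y Z W : 𝒱.Obj}

/-- the degree of the action on the cohomology -/
lemma actH_deg {e m : ℤ} {Γ : C.A (X.prod Y)} (hΓ : Γ ∈ C.gr (X.prod Y) (X.dim + e)) {a : H.A X}
    (ha : a ∈ H.gr X m) : H.act (H.cl Γ) a ∈ H.gr Y (m + 2 * e) := by
  rw [TheoryData.act_apply]
  have h := H.push_mem (snd X Y) (H.mul_mem (H.cl_mem hΓ) (H.pull_mem (fst X Y) ha))
  have e1 : 2 * ((X.dim : ℤ) + e) + m + 2 * ((Y.dim : ℤ) - ((X.prod Y).dim : ℤ)) = m + 2 * e := by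
    rw [dim_prod]; push_cast; ring
  rwa [e1] at h

/-- `p × p` acts as zero on the third cohomology of the square -/
lemma tens_kills {p : C.A (S.prod S)} (h1 : Kills H p 1) (h3 : Kills H p 3)
    {x : H.A (S.prod S)} (hx : x ∈ H.gr (S.prod S) 3) : H.act (H.cl (tens C p p)) x = 0 := by
  have h2 := H.kunneth S S 3 hx
  clear hx
  induction h2 using Submodule.span_induction with
  | mem x hx' =>
    obtain ⟨l, a, b, ha, hb, rfl⟩ := hx'
    have e1 : H.act (H.cl (tens C p p)) (H.ext a b) = H.ext (H.act (H.cl p) a) (H.act (H.cl p) b) :=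
      actH_tens_ext H p p a b
    change H.act (H.cl (tens C p p)) (H.ext a b) = 0
    rw [e1]
    by_cases ha0 : a = 0
    · rw [ha0, H.act_map_zero, H.ext_zero_left]
    by_cases hb0 : b = 0
    · rw [hb0, H.act_map_zero, H.ext_zero_right]
    have n1 := nonneg_of_mem H ha ha0
    have n2 := nonneg_of_mem H hb hb0
    have hl : l = 0 ∨ l = 1 ∨ l = 2 ∨ l = 3 := by omega
    rcases hl with rfl | rfl | rfl | rfl
    · rw [h3 b (by simpa using hb), H.ext_zero_right]
    · rw [h1 a ha, H.ext_zero_left]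
    · rw [h1 b (by
        have e2 : (3 : ℤ) - 2 = 1 := by norm_num
        rw [e2] at hb
        exact hb), H.ext_zero_right]
    · rw [h3 a ha, H.ext_zero_left]
  | zero => rw [H.act_map_zero]
  | add x y _ _ hx hy => rw [act_map_add, hx, hy, add_zero]
  | smul c x _ hx => rw [act_map_smul, hx, smul_zero]

/-- the operator `p × p` followed by the antisymmetrization -/
lemma act_phi (p : C.A (S.prod S)) (a : C.A (S.prod S)) :
    C.act (C.comp (tens C p p) (dg C (S.prod S) - C.graph (sw S S))) a =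
      C.act (tens C p p) a - tp C (C.act (tens C p p) a) := by
  rw [C.act_comp, C.act_sub, act_dg, C.act_graph, tp_eq_push]

section

variable (hd : S.dim = 2) {p : C.A (S.prod S)} (hp : C.Deg 2 p)
  (hdeg : IsDegenerate C (dg C S - p))

include hd hdeg in
/-- `p` acts as the identity on the Albanese kernel -/
lemma act_p {α : C.A S} (hα : α ∈ albKer C S) : C.act p α = α := by
  have h1 := degenerate_act hd hdeg.mem hα
  rw [C.act_sub, act_dg] at h1
  exact (sub_eq_zero.1 h1).symm

include hd hdeg in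
lemma act_tp_p {α : C.A S} (hα : α ∈ albKer C S) : C.act (tp C p) α = α := by
  have h1 := degenerate_act hd (degenerate_tp hdeg.mem) hα
  rw [tp_sub, tp_dg, C.act_sub, act_dg] at h1
  exact (sub_eq_zero.1 h1).symm

lemma tens_eq_comp (p a : C.A (S.prod S)) :
    C.act (tens C p p) a = C.comp (C.comp (tp C p) a) p := act_tens C (ch_comm C) p p a

include hd hp in
lemma tens_mem' {a : C.A (S.prod S)} (ha : a ∈ C.gr (S.prod S) 2) :
    C.act (tens C p p) a ∈ C.gr (S.prod S) 2 := by
  rw [tens_eq_comp]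
  have hp' : p ∈ C.gr (S.prod S) S.dim := by rw [hd]; exact hp
  have ha' : a ∈ C.gr (S.prod S) S.dim := by rw [hd]; exact ha
  have h := comp_mem0 C (comp_mem0 C (tp_mem C hp') ha') hp'
  rwa [hd] at h

include hd hp hdeg in
/-- the operator `p × p` does not change the action on the Albanese kernel -/
lemma act_P {a : C.A (S.prod S)} (ha : a ∈ C.gr (S.prod S) 2) {α : C.A S}
    (hα : α ∈ albKer C S) : C.act (C.act (tens C p p) a) α = C.act a α := by
  rw [tens_eq_comp, C.act_comp, C.act_comp, act_tp_p hd hdeg hα,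
    act_p hd hdeg (act_albKer hd hd ha hα)]

include hd hp hdeg in
lemma act_tp_P {a : C.A (S.prod S)} (ha : a ∈ C.gr (S.prod S) 2) {α : C.A S}
    (hα : α ∈ albKer C S) : C.act (tp C (C.act (tens C p p) a)) α = C.act (tp C a) α := by
  have h1 : tp C (C.act (tens C p p) a) = C.act (tens C p p) (tp C a) := by
    rw [tens_eq_comp, tens_eq_comp, tp_comp C (ch_comm C), tp_comp C (ch_comm C), tp_tp,
      comp_assoc]
  rw [h1]
  exact act_P hd hp hdeg (tp_mem C ha) hα

end

/-- **Homologically degenerate correspondences act as their transposes.** -/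
theorem symm_act (hPic : PicardRigid H) (hd : S.dim = 2) (hV : SatisfiesVoisin H S)
    {Z W : C.A (S.prod S)} (hZ : Z ∈ C.gr (S.prod S) 2) (hW : W ∈ degenerate C S S)
    (hcl : H.cl Z = H.cl W) {α : C.A S} (hα : α ∈ albKer C S) :
    C.act Z α = C.act (tp C Z) α := by
  obtain ⟨p, hp, hdeg, h1, h3, n, Y, Γ, Δ, hY, hΦ⟩ := hV
  have hW2 : W ∈ C.gr (S.prod S) 2 := by
    refine (Submodule.span_le.2 ?_ : degenerate C S S ≤ C.gr (S.prod S) 2) hW
    rintro c ⟨Y, Γ, Δ, hY, hd' | hd', rfl⟩
    · have := comp_mem C (e := -1) (e' := 1) (Γ := Γ) (Δ := Δ) (by rw [hd]; exact hd'.1)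
        (by rw [hY]; exact hd'.2)
      exact deg_cast (by rw [hd]; norm_num) this
    · have := comp_mem C (e := 0) (e' := 0) (Γ := Γ) (Δ := Δ) (by rw [hd]; exact hd'.1)
        (by rw [hY]; exact hd'.2)
      exact deg_cast (by rw [hd]; norm_num) this
  obtain ⟨b, hb⟩ : ∃ b, b = Z - W := ⟨_, rfl⟩
  have hb2 : b ∈ C.gr (S.prod S) 2 := by rw [hb]; exact Submodule.sub_mem _ hZ hW2
  have hbcl : H.cl b = 0 := by rw [hb, map_sub, hcl, sub_self]
  have hU : (S.prod S).dim = 4 := by rw [dim_prod, hd]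
  -- the operator
  obtain ⟨Φ, hΦ'⟩ : ∃ Φ : C.A ((S.prod S).prod (S.prod S)),
    Φ = C.comp (tens C p p) (dg C (S.prod S) - C.graph (sw S S)) := ⟨_, rfl⟩
  rw [← hΦ'] at hΦ
  have hact : ∀ a, C.act Φ a = C.act (tens C p p) a - tp C (C.act (tens C p p) a) := by
    intro a
    rw [hΦ', act_phi]
  have hact2 : ∀ a, C.act Φ a = ∑ i, C.act (Δ i) (C.act (Γ i) a) := by
    intro a
    rw [hΦ, act_sum]
    exact Finset.sum_congr rfl fun i _ => C.act_comp _ _ _
  -- `Φ (p × p) Φ` is zero on homologically trivial classes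
  have key : C.act Φ (C.act (tens C p p) (C.act Φ b)) = 0 := by
    rw [hact2]
    apply Finset.sum_eq_zero
    intro j _
    rw [hact2, act_map_sum, act_map_sum]
    have hz : ∀ i, C.act (Γ j) (C.act (tens C p p) (C.act (Δ i) (C.act (Γ i) b))) = 0 := by
      intro i
      obtain ⟨hYi, hΓi, hΔi⟩ := hY i
      obtain ⟨hYj, hΓj, hΔj⟩ := hY j
      have hYi3 : (Y i).dim = 3 := by omega
      have hYj3 : (Y j).dim = 3 := by omega
      rw [← C.act_comp, ← C.act_comp]
      apply hPic (Y i) (Y j)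
      · have m1 := comp_mem C (e := 0) (e' := -1) (Γ := tens C p p) (Δ := Γ j)
          (deg_cast (by rw [hU]; norm_num) (tens_mem C hp hp))
          (deg_cast (by rw [hYj3, hU]; norm_num) hΓj)
        have m2 := comp_mem C (e := 1) (e' := 0 + -1) (Γ := Δ i)
          (Δ := C.comp (tens C p p) (Γ j))
          (by rw [hYi3]; exact deg_cast (by rw [hU]; norm_num) hΔi) m1
        exact deg_cast (by norm_num) m2
      · intro x hx
        rw [actH_comp, actH_comp]
        have m1 := actH_deg (H := H) (e := 1) (Γ := Δ i)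
          (by rw [hYi3]; exact deg_cast (by rw [hU]; norm_num) hΔi) hx
        rw [tens_kills h1 h3 (by
          have e2 : (1 : ℤ) + 2 * 1 = 3 := by norm_num
          rw [e2] at m1
          exact m1), TheoryData.act_map_zero]
      · have m1 := act_mem' C (e := -1) (Γ := Γ i) (deg_cast (by rw [hYi3, hU]; norm_num) hΓi)
          hb2
        exact deg_cast (by norm_num) m1
      · rw [TheoryData.act, H.cl_push, map_mul, H.cl_pull, hbcl, map_zero, mul_zero, map_zero]
    rw [Finset.sum_congr rfl fun i _ => hz i, Finset.sum_const_zero, C.act_map_zero]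
  -- the action on the Albanese kernel
  have m1 : C.act (tens C p p) b ∈ C.gr (S.prod S) 2 := tens_mem' hd hp hb2
  have m2 : C.act Φ b ∈ C.gr (S.prod S) 2 := by
    rw [hact]
    exact Submodule.sub_mem _ m1 (tp_mem C m1)
  have m3 : C.act (tens C p p) (C.act Φ b) ∈ C.gr (S.prod S) 2 := tens_mem' hd hp m2
  have m4 : C.act (tens C p p) (C.act (tens C p p) (C.act Φ b)) ∈ C.gr (S.prod S) 2 :=
    tens_mem' hd hp m3
  have a1 : C.act (C.act Φ b) α = C.act b α - C.act (tp C b) α := by
    rw [hact, C.act_sub, act_P hd hp hdeg hb2 hα, act_tp_P hd hp hdeg hb2 hα]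
  have a2 : C.act (tp C (C.act Φ b)) α = C.act (tp C b) α - C.act b α := by
    rw [hact, tp_sub, tp_tp, C.act_sub, act_P hd hp hdeg hb2 hα, act_tp_P hd hp hdeg hb2 hα]
  have a3 : C.act (C.act Φ (C.act (tens C p p) (C.act Φ b))) α =
      C.act (C.act Φ b) α - C.act (tp C (C.act Φ b)) α := by
    rw [hact (C.act (tens C p p) _), C.act_sub, act_P hd hp hdeg m3 hα,
      act_tp_P hd hp hdeg m3 hα, act_P hd hp hdeg m2 hα, act_tp_P hd hp hdeg m2 hα]
  rw [key, C.act_zero, a1, a2] at a3
  have a4 : (2 : ℚ) • (C.act b α - C.act (tp C b) α) = 0 := by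
    rw [two_smul]
    refine Eq.trans ?_ a3.symm
    abel
  have a5 : C.act b α = C.act (tp C b) α :=
    sub_eq_zero.1 ((smul_eq_zero.1 a4).resolve_left (by norm_num))
  have a6 : C.act b α = C.act Z α := by
    rw [hb, C.act_sub, degenerate_act hd hW hα, sub_zero]
  have a7 : C.act (tp C b) α = C.act (tp C Z) α := by
    rw [hb, tp_sub, C.act_sub, degenerate_act hd (degenerate_tp hW) hα, sub_zero]
  rw [← a6, ← a7, a5]

end Pool.Agent.X307.BV
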