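import Pool.Agent.X307.BV.Main
import Pool.Agent.Y152.AS.Sq

/-!
# The ring with involution of a surface which satisfies Voisin's conjecture
-/

open CategoryTheory AlgebraicGeometry

universe u v w

namespace Pool.Agent.X307.BV

open Pool.Agent.H914 Pool.Agent.H914.VarClass Pool.Agent.H914.VarClass.Obj Pool.Agent.W492.BB
  Pool.Agent.W550.Corr Pool.Agent.TH133 Pool.Agent.Y152 Pool.Agent.Y152.AS

open MulOpposite

set_option linter.unusedSectionVars false

variable {k : Type u} [Field k] {𝒱 : VarClass k} {C : TheoryData.{u, v, 0} 𝒱 ℚ}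
  [hC : IsChowProj C] {K : Type w} [Field K] {H : WeilTheoryData.{u, v, w} C K}
  [hH : IsWeilProj H] {S T : 𝒱.Obj}

/-- The ring with involution and the nil ideal of a surface, from the symmetry and the nilpotence of
the correspondences which are homologically equivalent to degenerate ones. -/
lemma setup_of (hS : S.dim = 2)
    (hsym : ∀ Γ ∈ C.gr (S.prod S) 2, HomDeg H Γ → ∀ α ∈ albKer C S,
      C.act Γ α = C.act (tp C Γ) α)
    (hnil : ∀ (Γ : C.A (S.prod S)) (hΓ : Γ ∈ C.gr (S.prod S) 2), HomDeg H Γ →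
      IsNilpotent (ro hS hS ⟨Γ, hΓ⟩ : Module.End ℚ (albKer C S)))
    (hF : FieldMod H S) :
    Alg.Setup (P := PP C S) (swp C S) (QQ C hS) (JJ H hS) where
  s_mul _ _ := rfl
  s_s _ := rfl
  one_mem := ⟨_, _, ph_dg hS⟩
  mul_mem := by
    rintro _ _ ⟨Γ, hΓ, rfl⟩ ⟨Δ, hΔ, rfl⟩
    exact ⟨_, _, ph_comp hS hΔ hΓ⟩
  s_mem := by
    rintro _ ⟨Γ, hΓ, rfl⟩
    exact ⟨_, _, (swp_ph hS hΓ).symm⟩
  le := by
    rintro _ ⟨Γ, hΓ, _, rfl⟩
    exact ⟨_, _, rfl⟩
  left := by
    rintro _ _ ⟨Γ, hΓ, rfl⟩ ⟨Δ, hΔ, h1, rfl⟩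
    exact ⟨_, _, h1.comp_right hS hΓ, ph_comp hS hΔ hΓ⟩
  right := by
    rintro _ _ ⟨Δ, hΔ, h1, rfl⟩ ⟨Γ, hΓ, rfl⟩
    exact ⟨_, _, h1.comp_left hS hS hΓ, ph_comp hS hΓ hΔ⟩
  sym := by
    rintro _ ⟨Γ, hΓ, h1, rfl⟩
    rw [swp_ph]
    have h2 := hsym Γ hΓ h1
    refine ph_congr hS _ _ (fun α hα => (h2 α hα).symm) (fun α hα => ?_)
    rw [tp_tp]
    exact h2 α hα
  nil := by
    rintro _ ⟨Γ, hΓ, h1, rfl⟩
    obtain ⟨n, hn⟩ := hnil Γ hΓ h1
    obtain ⟨m, hm⟩ := hnil (tp C Γ) (tp_mem C hΓ) h1.transp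
    refine ⟨n + m, Prod.ext ?_ ?_⟩
    · change (ro hS hS ⟨Γ, hΓ⟩ : Module.End ℚ (albKer C S)) ^ (n + m) = 0
      rw [pow_add, hn, zero_mul]
    · change (op (ro hS hS ⟨tp C Γ, tp_mem C hΓ⟩) : (Module.End ℚ (albKer C S))ᵐᵒᵖ) ^ (n + m) = 0
      rw [← op_pow, pow_add, hm, mul_zero, op_zero]
  comm := by
    rintro _ _ ⟨Γ, hΓ, rfl⟩ ⟨Δ, hΔ, rfl⟩
    refine ⟨_, Submodule.sub_mem _ (comp_mem2 hS hS hΔ hΓ) (comp_mem2 hS hS hΓ hΔ),
      hF.comm Δ Γ hΔ hΓ, ?_⟩
    rw [ph_sub hS (comp_mem2 hS hS hΔ hΓ) (comp_mem2 hS hS hΓ hΔ), ph_comp, ph_comp]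
  inv := by
    rintro _ ⟨Γ, hΓ, rfl⟩
    rcases hF.inv Γ hΓ with h1 | ⟨W, hW, h1⟩
    · exact Or.inl ⟨_, _, h1, rfl⟩
    · refine Or.inr ⟨_, ⟨W, hW, rfl⟩, _,
        Submodule.sub_mem _ (comp_mem2 hS hS hW hΓ) (dg_mem2 hS), h1, ?_⟩
      rw [ph_sub hS (comp_mem2 hS hS hW hΓ) (dg_mem2 hS), ph_comp, ph_dg]

/-- Homologically degenerate correspondences act as their transposes (all pairs). -/
lemma symm_homDeg (hPic : PicardRigid H) (hd : S.dim = 2) (hV : SatisfiesVoisin H S)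
    {Γ : C.A (S.prod S)} (hΓ : Γ ∈ C.gr (S.prod S) 2) (h : HomDeg H Γ) {α : C.A S}
    (hα : α ∈ albKer C S) : C.act Γ α = C.act (tp C Γ) α := by
  obtain ⟨W, hW, hcl⟩ := h
  exact symm_act hPic hd hV hΓ hW hcl hα

/-- If some antisymmetric correspondence is injective on the Albanese kernel then the composition of
two homologically degenerate correspondences acts as zero. -/
theorem sq_zero (hPic : PicardRigid H) (hd : S.dim = 2) (hV : SatisfiesVoisin H S)
    {Y : C.A (S.prod S)} (hY : Y ∈ C.gr (S.prod S) 2)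
    (hinj : ∀ α ∈ albKer C S, C.act (antisym C Y) α = 0 → α = 0)
    {Z W : C.A (S.prod S)} (hZ : Z ∈ C.gr (S.prod S) 2) (hZd : HomDeg H Z)
    (hW : W ∈ C.gr (S.prod S) 2) (hWd : HomDeg H W) {α : C.A S} (hα : α ∈ albKer C S) :
    C.act W (C.act Z α) = 0 := by
  obtain ⟨u, hu⟩ : ∃ u, u = antisym C Y := ⟨_, rfl⟩
  have hu2 : u ∈ C.gr (S.prod S) 2 := by
    rw [hu]
    exact Submodule.sub_mem _ hY (tp_mem C hY)
  have htu : ∀ β ∈ albKer C S, C.act (tp C u) β = -C.act u β := by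
    intro β _
    rw [hu, antisym, tp_sub, tp_tp, ← act_neg, neg_sub]
  -- `x` a homologically degenerate correspondence: `u x = - x u`
  have key : ∀ {X : C.A (S.prod S)}, X ∈ C.gr (S.prod S) 2 → HomDeg H X → ∀ β ∈ albKer C S,
      C.act u (C.act X β) = -C.act X (C.act u β) := by
    intro X hX hXd β hβ
    have h1 := symm_homDeg hPic hd hV (comp_mem2 hd hd hX hu2) (hXd.comp_right hd hu2) hβ
    rw [C.act_comp, tp_comp C (ch_comm C), C.act_comp, htu β hβ,
      ← neg_one_smul ℚ (C.act u β), act_map_smul, neg_one_smul,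
      ← symm_homDeg hPic hd hV hX hXd (act_albKer hd hd hu2 hβ)] at h1
    exact h1
  have hZα := act_albKer hd hd hZ hα
  have hWZ := act_albKer hd hd hW hZα
  have h1 : C.act u (C.act W (C.act Z α)) = -C.act W (C.act Z (C.act u α)) := by
    have h2 := key (comp_mem2 hd hd hZ hW) (hZd.comp_right hd hW) α hα
    rwa [C.act_comp, C.act_comp] at h2
  have h2 : C.act u (C.act W (C.act Z α)) = C.act W (C.act Z (C.act u α)) := by
    rw [key hW hWd _ hZα, key hZ hZd _ hα, ← neg_one_smul ℚ (C.act Z (C.act u α)), act_map_smul,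
      neg_one_smul, neg_neg]
  have h3 : C.act u (C.act W (C.act Z α)) = 0 := by
    rw [h1] at h2
    have h4 : (2 : ℚ) • C.act W (C.act Z (C.act u α)) = 0 := by
      rw [two_smul]
      nth_rw 1 [← h2]
      exact neg_add_cancel _
    have h5 := (smul_eq_zero.1 h4).resolve_left (by norm_num)
    rw [h1, h5, neg_zero]
  exact hinj _ hWZ (by rw [← hu]; exact h3)

/-- The ring with involution for surfaces which satisfy Voisin's conjecture and on which some
antisymmetric correspondence is injective. -/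
lemma setup (hPic : PicardRigid H) (hd : S.dim = 2) (hV : SatisfiesVoisin H S)
    {Y : C.A (S.prod S)} (hY : Y ∈ C.gr (S.prod S) 2)
    (hinj : ∀ α ∈ albKer C S, C.act (antisym C Y) α = 0 → α = 0) (hF : FieldMod H S) :
    Alg.Setup (P := PP C S) (swp C S) (QQ C hd) (JJ H hd) := by
  refine setup_of hd (fun Γ hΓ h α hα => symm_homDeg hPic hd hV hΓ h hα) ?_ hF
  intro Γ hΓ h
  refine ⟨2, LinearMap.ext fun α => Subtype.ext ?_⟩
  rw [pow_two]
  exact sq_zero hPic hd hV hY hinj hΓ h hΓ h α.2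

end Pool.Agent.X307.BV

namespace Pool.Agent.X307.BV

open Pool.Agent.H914 Pool.Agent.H914.VarClass Pool.Agent.H914.VarClass.Obj Pool.Agent.W492.BB
  Pool.Agent.W550.Corr Pool.Agent.TH133 Pool.Agent.Y152 Pool.Agent.Y152.AS
open Pool.Agent.TH829.Kim (R0 toA ofA toA_mul toA_inj toA_mem toA_ofA IsKimuraFinite ratFam)

set_option linter.unusedSectionVars false

variable {k : Type u} [Field k] {𝒱 : VarClass k} {C : TheoryData.{u, v, 0} 𝒱 ℚ}
  [hC : IsChowProj C] {K : Type w} [Field K] {H : WeilTheoryData.{u, v, w} C K}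
  [hH : IsWeilProj H] {S T : 𝒱.Obj}

/-- If the motive of `S` is finite-dimensional then homologically degenerate correspondences act
nilpotently on the Albanese kernel. -/
lemma nil_kimura (hS : S.dim = 2) (hK : IsKimuraFinite C (ratFam C) S) {Z : C.A (S.prod S)}
    (hZ : Z ∈ C.gr (S.prod S) 2) (hdeg : HomDeg H Z) :
    IsNilpotent (ro hS hS ⟨Z, hZ⟩ : Module.End ℚ (albKer C S)) := by
  obtain ⟨W, hW, hZW⟩ := hdeg
  have hV : Z - W ∈ C.gr (S.prod S) S.dim := by
    rw [hS]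
    exact Submodule.sub_mem _ hZ (degenerate_le hS hW)
  have hVcl : H.cl (toA (ofA (Z - W) hV)) = 0 := by rw [toA_ofA, map_sub, hZW, sub_self]
  obtain ⟨n, hn⟩ := Pool.Agent.Y110.isNilpotent_of_kimura (H := H) hK hVcl
  have key : ∀ (m : ℕ) (α : albKer C S),
      (((ro hS hS ⟨Z, hZ⟩ : Module.End ℚ (albKer C S)) ^ m) α).1 =
        C.act (toA (ofA (Z - W) hV ^ m)) α.1 := by
    intro m
    induction m with
    | zero =>
      intro α
      rw [pow_zero, pow_zero, TH829.Kim.toA_one, act_dg]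
      rfl
    | succ m ih =>
      intro α
      rw [pow_succ, Module.End.mul_apply, ih, pow_succ, toA_mul, C.act_comp, toA_ofA,
        C.act_sub, degenerate_act hS hW α.2, sub_zero]
      rfl
  refine ⟨n, LinearMap.ext fun α => Subtype.ext ?_⟩
  rw [key, hn, map_zero, C.act_zero]
  rfl

/-- The ring with involution for surfaces which satisfy Voisin's conjecture and have a
finite-dimensional motive. -/
lemma setup_kimura (hPic : PicardRigid H) (hd : S.dim = 2) (hV : SatisfiesVoisin H S)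
    (hK : IsKimuraFinite C (ratFam C) S) (hF : FieldMod H S) :
    Alg.Setup (P := PP C S) (swp C S) (QQ C hd) (JJ H hd) :=
  setup_of hd (fun _ hΓ h _ hα => symm_homDeg hPic hd hV hΓ h hα)
    (fun _ hΓ h => nil_kimura hd hK hΓ h) hF

end Pool.Agent.X307.BV
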